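import Pool.Agent.Helper8.TNG.Stmts

namespace Pool.Agent.Helper8.TNG

theorem FLT_a {α : Type} [DecidableEq α] (lt : α → α → Bool) (t : α)
    (ht : ∀ p, lt t p = false) (s : List α) :
    ∀ p : α, outc lt s p = outc lt (s.filter (fun q => decide (q ≠ t))) p := by
  induction s with
  | nil => intro p; rfl
  | cons r s ih =>
    intro p
    by_cases hr : r = t
    · subst hr
      simp only [outc, ht p, Bool.false_eq_true, if_false]
      rw [ih p]
      simp
    · have h1 : (r :: s).filter (fun q => decide (q ≠ t)) =
          r :: s.filter (fun q => decide (q ≠ t)) := by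
        simp [hr]
      rw [h1]
      by_cases h2 : lt r p = true
      · simp only [outc, h2, if_true]; exact ih r
      · simp only [outc, h2]; exact ih p

theorem FLT_b {α : Type} [DecidableEq α] (lt : α → α → Bool) (t : α)
    (ht : ∀ p, lt t p = false) (s : List α) :
    ∀ p : α, p ≠ t → (ins lt s p).filter (fun q => decide (q ≠ t)) =
      ins lt (s.filter (fun q => decide (q ≠ t))) p := by
  induction s with
  | nil => intro p hp; simp [ins, hp]
  | cons r s ih =>
    intro p hp
    by_cases hr : r = t
    · subst hr
      have h1 : ins lt (r :: s) p = r :: ins lt s p := by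
        simp [ins, ht p]
      rw [h1]
      have h2 : (r :: ins lt s p).filter (fun q => decide (q ≠ r)) =
          (ins lt s p).filter (fun q => decide (q ≠ r)) := by simp
      have h3 : (r :: s).filter (fun q => decide (q ≠ r)) =
          s.filter (fun q => decide (q ≠ r)) := by simp
      rw [h2, h3, ih p hp]
    · have h1 : (r :: s).filter (fun q => decide (q ≠ t)) =
          r :: s.filter (fun q => decide (q ≠ t)) := by
        simp [hr]
      rw [h1]
      by_cases h2 : lt r p = true
      · have h3 : ins lt (r :: s) p = p :: ins lt s r := by simp [ins, h2]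
        have h4 : ins lt (r :: s.filter (fun q => decide (q ≠ t))) p =
            p :: ins lt (s.filter (fun q => decide (q ≠ t))) r := by simp [ins, h2]
        rw [h3, h4, ← ih r hr, List.filter_cons_of_pos (by simp [hp])]
      · have h3 : ins lt (r :: s) p = r :: ins lt s p := by simp [ins, h2]
        have h4 : ins lt (r :: s.filter (fun q => decide (q ≠ t))) p =
            r :: ins lt (s.filter (fun q => decide (q ≠ t))) p := by simp [ins, h2]
        rw [h3, h4, ← ih p hp, List.filter_cons_of_pos (by simp [hr])]

theorem FLT_c (hI : ST_INS) {α : Type} [DecidableEq α] (lt : α → α → Bool) (t : α)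
    (ht : ∀ p, lt t p = false) (w : List α) :
    ∀ s : List α, (∀ p ∈ s ++ w, lt p t = false) →
      (run lt s w).filter (fun q => decide (q ≠ t)) =
      run lt (s.filter (fun q => decide (q ≠ t))) (w.filter (fun q => decide (q ≠ t))) := by
  obtain ⟨-, hI2, -, -, hI5, -⟩ := hI α lt
  induction w with
  | nil => intro s _; rfl
  | cons p w ih =>
    intro s hs
    have h1 : run lt s (p :: w) = run lt (ins lt s p) w := rfl
    have h2 : ∀ q ∈ ins lt s p ++ w, lt q t = false := by
      intro q hq
      rcases List.mem_append.1 hq with hq | hq
      · have := (hI2 s p).mem_iff.1 hq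
        rcases List.mem_cons.1 this with h | h
        · subst h; exact hs q (by simp)
        · exact hs q (by simp [h])
      · exact hs q (by simp [hq])
    rw [h1, ih _ h2]
    by_cases hp : p = t
    · subst hp
      have h3 : (p :: w).filter (fun q => decide (q ≠ p)) =
          w.filter (fun q => decide (q ≠ p)) := by simp
      rw [h3]
      have h4 := (hI5 s p (fun r hr => hs r (by simp [hr]))).2
      rw [h4]
      simp
    · have h3 : (p :: w).filter (fun q => decide (q ≠ t)) =
          p :: w.filter (fun q => decide (q ≠ t)) := by simp [hp]
      rw [h3, FLT_b lt t ht s p hp]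
      rfl

/-- FLT: entries that are below nothing can be ignored; letters that are comparable with
nothing can be erased. -/
theorem st_FLT (hI : ST_INS) : ST_FLT := by
  intro α _ lt t ht
  refine ⟨fun s p => FLT_a lt t ht s p, fun s p hp => FLT_b lt t ht s p hp, ?_⟩
  intro w hw
  exact FLT_c hI lt t ht w [] (by simpa using hw)

end Pool.Agent.Helper8.TNG
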