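import Pool.Agent.Helper8.TNG.Stmts

namespace Pool.Agent.Helper8.TNG

section PRM23

variable {P : Type} [Fintype P] [DecidableEq P] [PartialOrder P]

omit [Fintype P] [PartialOrder P] in
theorem PRM23_lab_inj (w : List P) (hall : ∀ p, p ∈ w) :
    ∀ p q : P, lab w p = lab w q → p = q := by
  intro p q h
  unfold lab at h
  exact List.idxOf_inj (hall p) |>.1 (by omega)

omit [Fintype P] [DecidableEq P] in
theorem PRM23_unique (L : P → ℕ) (hL : ∀ p q, L p = L q → p = q) :
    Relator.RightUnique (IsLSucc L) := by
  intro a b c hb hc
  exact hL b c (le_antisymm (hb.2 c hc.1) (hc.2 b hb.1))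

omit [Fintype P] [DecidableEq P] in
theorem PRM23_up (L : P → ℕ) (hL : ∀ p q, L p = L q → p = q) (h1 : ∀ p, 1 ≤ L p) :
    ∀ a, InChain L a → ∀ t, a < t → L a < L t := by
  intro a ha
  induction ha with
  | first a ha =>
    intro t ht
    rcases Nat.lt_or_ge (L a) (L t) with h | h
    · exact h
    · exact absurd (hL a t (le_antisymm (by rw [ha]; exact h1 t) h)) (ne_of_lt ht)
  | next a b _ hs ih =>
    intro t ht
    have h2 := hs.2 t (lt_trans hs.1 ht)
    rcases lt_or_eq_of_le h2 with h | h
    · exact h
    · exact absurd (hL b t h) (ne_of_lt ht)

omit [Fintype P] [DecidableEq P] in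
theorem PRM23_mono (L : P → ℕ) (hL : ∀ p q, L p = L q → p = q) (h1 : ∀ p, 1 ≤ L p)
    (a b : P) (h : Relation.ReflTransGen (IsLSucc L) a b) (ha : InChain L a) :
    L a ≤ L b ∧ InChain L b := by
  induction h with
  | refl => exact ⟨le_refl _, ha⟩
  | tail _ hs ih =>
    exact ⟨le_trans ih.1 (le_of_lt (PRM23_up L hL h1 _ ih.2 _ hs.1)), InChain.next _ _ ih.2 hs⟩

omit [Fintype P] [DecidableEq P] in
theorem PRM23_reach (L : P → ℕ) (hL : ∀ p q, L p = L q → p = q) (c : P) (hc : L c = 1) :
    ∀ a, InChain L a → Relation.ReflTransGen (IsLSucc L) c a := by
  intro a ha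
  induction ha with
  | first a ha =>
    have : c = a := hL c a (by rw [hc, ha])
    rw [this]
  | next a b _ hs ih => exact ih.tail hs

omit [Fintype P] [DecidableEq P] in
/-- No letter of the rest that is not above the carry is in the chain, if it is the next one. -/
theorem PRM23_notin (L : P → ℕ) (hL : ∀ p q, L p = L q → p = q) (h1 : ∀ p, 1 ≤ L p)
    (c : P) (hc : L c = 1) (v p : P) (hv : InChain L v) (hvp : ¬ v < p) (hlt : L v < L p)
    (hno : ∀ t, v < t → L p ≤ L t) : ¬ InChain L p := by
  intro hp
  have r1 := PRM23_reach L hL c hc v hv
  have r2 := PRM23_reach L hL c hc p hp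
  rcases Relation.ReflTransGen.total_of_right_unique (PRM23_unique L hL) r1 r2 with h | h
  · rcases Relation.ReflTransGen.cases_head h with h | ⟨s, hs, hsp⟩
    · subst h; exact lt_irrefl _ hlt
    · have hsc : InChain L s := InChain.next _ _ hv hs
      have h3 := (PRM23_mono L hL h1 s p hsp hsc).1
      have h4 := hno s hs.1
      have h5 : s = p := hL s p (le_antisymm h3 h4)
      subst h5
      exact hvp hs.1
  · have := (PRM23_mono L hL h1 p v h hp).1
    omega

theorem PRM23_main (lt : P → P → Bool) (hlt : ∀ p q, lt p q = true ↔ p < q) (w : List P)
    (hnd : w.Nodup) (hall : ∀ p, p ∈ w) (c : P) (hc : lab w c = 1) (rest : List P) :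
    ∀ (pre : List P) (v : P), w = pre ++ rest → v ∈ pre → InChain (lab w) v →
      (∀ t ∈ pre, ¬ v < t) →
      promote (lab w) v = pre.length + (pass lt v rest).idxOf v ∧
      ∀ p ∈ rest, promote (lab w) p = pre.length + (pass lt v rest).idxOf p := by
  have hL : ∀ p q, lab w p = lab w q → p = q := PRM23_lab_inj w hall
  have h1 : ∀ p, 1 ≤ lab w p := fun p => by unfold lab; omega
  have hcard : w.length = Fintype.card P := by
    have := List.toFinset_card_of_nodup hnd
    rw [← this]
    have h2 : w.toFinset = Finset.univ := by
      ext p; simp [hall p]
    rw [h2]; rfl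
  induction rest with
  | nil =>
    intro pre v hw hv hch hno
    refine ⟨?_, by simp⟩
    have hns : ¬ ∃ q, IsLSucc (lab w) v q := by
      rintro ⟨q, hq⟩
      have : q ∈ pre := by
        have := hall q
        rw [hw] at this
        simpa using this
      exact hno q this hq.1
    unfold promote
    rw [if_pos hch, dif_neg hns, ← hcard, hw]
    simp [pass]
  | cons p rest ih =>
    intro pre v hw hv hch hno
    have hnd' := hnd
    rw [hw] at hnd'
    have hppre : p ∉ pre := by
      intro h
      have := (List.nodup_append.1 hnd').2.2 p h p (by simp)
      exact this rfl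
    have hvp : v ≠ p := fun h => hppre (h ▸ hv)
    have hidp : lab w p = pre.length + 1 := by
      unfold lab
      rw [hw, List.idxOf_append_of_notMem hppre]
      simp
    have hidt : ∀ t, t ∉ pre → pre.length + 1 ≤ lab w t := by
      intro t ht
      unfold lab
      rw [hw, List.idxOf_append_of_notMem ht]
      omega
    have hw2 : w = (pre ++ [p]) ++ rest := by rw [hw]; simp
    by_cases hl : lt v p = true
    · have hvlt : v < p := (hlt v p).1 hl
      have hsucc : IsLSucc (lab w) v p := by
        refine ⟨hvlt, fun t ht => ?_⟩
        rw [hidp]
        exact hidt t (fun h => hno t h ht)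
      have hpc : InChain (lab w) p := InChain.next _ _ hch hsucc
      have hno2 : ∀ t ∈ pre ++ [p], ¬ p < t := by
        intro t ht hpt
        rcases List.mem_append.1 ht with h | h
        · exact hno t h (lt_trans hvlt hpt)
        · rw [List.mem_singleton] at h
          subst h
          exact lt_irrefl _ hpt
      have IH := ih (pre ++ [p]) p hw2 (by simp) hpc hno2
      have hpass : pass lt v (p :: rest) = v :: pass lt p rest := by simp [pass, hl]
      rw [hpass]
      refine ⟨?_, ?_⟩
      · have hex : ∃ q, IsLSucc (lab w) v q := ⟨p, hsucc⟩
        have hch2 : hex.choose = p := PRM23_unique (lab w) hL hex.choose_spec hsucc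
        unfold promote
        rw [if_pos hch, dif_pos hex, hch2, hidp]
        simp
      · intro q hq
        rcases List.mem_cons.1 hq with h | h
        · subst h
          rw [IH.1, List.idxOf_cons_ne _ hvp]
          simp only [List.length_append, List.length_singleton]
          omega
        · have hvq : v ≠ q := by
            intro h2
            subst h2
            have := (List.nodup_append.1 hnd').2.2 v hv v (by simp [h])
            exact this rfl
          rw [IH.2 q h, List.idxOf_cons_ne _ hvq]
          simp only [List.length_append, List.length_singleton]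
          omega
    · have hvn : ¬ v < p := fun h => hl ((hlt v p).2 h)
      have hno2 : ∀ t ∈ pre ++ [p], ¬ v < t := by
        intro t ht hpt
        rcases List.mem_append.1 ht with h | h
        · exact hno t h hpt
        · rw [List.mem_singleton] at h
          subst h
          exact hvn hpt
      have IH := ih (pre ++ [p]) v hw2 (by simp [hv]) hch hno2
      have hpass : pass lt v (p :: rest) = p :: pass lt v rest := by simp [pass, hl]
      rw [hpass]
      refine ⟨?_, ?_⟩
      · rw [IH.1, List.idxOf_cons_ne _ (Ne.symm hvp)]
        simp only [List.length_append, List.length_singleton]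
        omega
      · intro q hq
        rcases List.mem_cons.1 hq with h | h
        · subst h
          have hlabv : lab w v < lab w q := by
            rw [hidp]
            unfold lab
            rw [hw, List.idxOf_append_of_mem hv]
            have := List.idxOf_lt_length_iff.2 hv
            omega
          have hnc := PRM23_notin (lab w) hL h1 c hc v q hch hvn hlabv (by
            intro t ht
            rw [hidp]
            exact hidt t (fun h => hno t h ht))
          unfold promote
          rw [if_neg hnc, hidp]
          simp
        · have hpq : p ≠ q := by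
            intro h2
            subst h2
            have h3 := (List.nodup_append.1 hnd').2.1
            exact (List.nodup_cons.1 h3).1 h
          rw [IH.2 q h, List.idxOf_cons_ne _ hpq]
          simp only [List.length_append, List.length_singleton]
          omega

end PRM23

/-- PRM: promotion of the labeling of a word is the labeling of the promoted word. -/
theorem st_PRM : ST_PRM := by
  intro P _ _ _ lt hlt w hnd hall
  funext p
  cases w with
  | nil => exact absurd (hall p) (by simp)
  | cons c w =>
    have hc : lab (c :: w) c = 1 := by simp [lab]
    have hch : InChain (lab (c :: w)) c := InChain.first c hc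
    have key := PRM23_main lt hlt (c :: w) hnd hall c hc w [c] c (by simp) (by simp) hch
      (by
        intro t ht
        rw [List.mem_singleton] at ht
        subst ht
        exact lt_irrefl _)
    have hres : promote (lab (c :: w)) p = 1 + (pass lt c w).idxOf p := by
      rcases List.mem_cons.1 (hall p) with h | h
      · subst h; simpa using key.1
      · simpa using key.2 p h
    rw [hres]
    simp only [lab, promW]
    omega

end Pool.Agent.Helper8.TNG
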