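import Pool.Agent.Helper8.TNG.Stmts

namespace Pool.Agent.Helper8.TNG

theorem WC23_mem {α : Type} [DecidableEq α] (S : Finset α) (w : List α) :
    w ∈ Wd S ↔ w.Nodup ∧ ∀ p, p ∈ w ↔ p ∈ S := by
  unfold Wd
  rw [List.mem_toFinset, List.mem_permutations]
  constructor
  · intro h
    refine ⟨(h.nodup_iff).2 S.nodup_toList, fun p => ?_⟩
    rw [h.mem_iff, Finset.mem_toList]
  · rintro ⟨h1, h2⟩
    rw [List.perm_ext_iff_of_nodup h1 S.nodup_toList]
    intro p
    rw [h2 p, Finset.mem_toList]

/-- WC: the words over `S`. -/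
theorem st_WC : ST_WC := by
  intro α _ S
  refine ⟨fun w => WC23_mem S w, ?_⟩
  unfold Wd
  rw [List.toFinset_card_of_nodup (List.nodup_permutations _ S.nodup_toList),
    List.length_permutations, Finset.length_toList]

end Pool.Agent.Helper8.TNG
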